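import Pool.Agent.Helper45.Slit.UpperFinal
import Pool.Agent.Helper45.Slit.Ex6

/-!
# Tip position of slit maps with bounded slit angle

For `0 < α ≤ 1` the supremum of the tip angles `|φ_f|`, `f ∈ S_α`, `f(-1) = ∞`, equals `απ`,
whether or not (`closed`) the last analytic arc of the slit is required to be analytic at `∞`.
-/

namespace Pool.Agent.Results.MP_70d5b9_an.TipPosition

open Pool.Agent.Helper45.Slit

theorem result (closed : Prop) (α : ℝ) (hα0 : 0 < α) (hα1 : α ≤ 1) :
    IsLUB (tipAngles closed α) (α * Real.pi) := by
  constructor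
  · intro x hx
    exact tipAngles_le hα0 hα1 hx
  · intro b hb
    by_contra hcon
    push Not at hcon
    obtain ⟨x, hx, hlt⟩ := exists_tipAngles closed hα0 hα1 (sub_pos.2 hcon)
    have := hb hx
    linarith

end Pool.Agent.Results.MP_70d5b9_an.TipPosition
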